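import Pool.Agent.H847R2.Shear.Surface

/-! # Metrics without conjugate points on (surface) × (circle)

There are a closed surface `M` of genus at least `2` and a Riemannian metric `g` on `M × S¹`
without conjugate points such that the `ℤ`-cover `M × ℝ` with the lifted metric is not a
Riemannian product `(M, g₁) × (ℝ, dt²)`.

`M = {cos x + cos y + cos z = 0}` in the torus `(ℝ/2πℤ)³`, of nonpositive curvature (genus `3`),
and `g = g_M + (dt + dx)²`. -/

namespace Pool.Agent.Results.MP_13b5d9_gt.Shear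

open Pool.Agent.H847R2.Shear

theorem result :
    ∃ F : (Fin 3 → ℂ) → (Fin 3 → ℝ) × ℝ,
      IsClosedSurface F ∧ BettiOneAtLeast {p : Fin 3 → ℂ // F p = 0} 3 ∧
      ∃ g : (Fin 3 → ℂ) × ℂ → ((Fin 3 → ℂ) × ℂ) →L[ℝ] ((Fin 3 → ℂ) × ℂ) →L[ℝ] ℝ,
        IsRiemannianMetric (timesCircle F) g ∧
        NoConjugatePoints (timesCircle F) g ∧
        ∀ g₁ : (Fin 3 → ℂ) → (Fin 3 → ℂ) →L[ℝ] (Fin 3 → ℂ) →L[ℝ] ℝ,
          IsRiemannianMetric F g₁ →
          ¬ AreIsometric (timesLine F) (pullback (cover (Fin 3 → ℂ)) g)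
              (timesLine F) (timesDtSq g₁) :=
  ⟨F0, closedSurface_F0, betti_F0, g0, metric_g0, noConjugatePoints_g0,
    fun g₁ _ => not_isometric g₁⟩

end Pool.Agent.Results.MP_13b5d9_gt.Shear
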